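import Pool.Agent.N876.CG.ModR
import Pool.Agent.W484.CK.Main
import Pool.Agent.W484.CK.Motivic
import Pool.Agent.N876.TB2.Defs

/-!
# Proof of `MP_2ce3e7_ag.HyperplaneCoverings`
-/

set_option autoImplicit false

open Finset Polynomial CategoryTheory AlgebraicGeometry
open scoped TensorProduct

namespace Pool.Agent.N876.TB2

open Pool.Agent.H914 Pool.Agent.H914.VarClass Pool.Agent.H914.VarClass.Obj Pool.Agent.W492.BB
  Pool.Agent.W484.CK

theorem main (c : ℕ) [Fact c.Prime] (κ : Type) [Field κ] [Fintype κ] [CharP κ c] {ι : Type}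
    (C : ι → Covering κ) (f N lam : ℕ) (hC : IsSmallSystem C c f N lam)
    {𝒱 : VarClass κ} (A : TheoryData.{0, 0, 0} 𝒱 ℚ) [IsChow A] {K : Type} [Field K]
    [IsAlgClosed K] [CharZero K] (H : WeilTheoryData.{0, 0, 0} A K) [IsWeil H] (τ : K →+* ℂ)
    (F : ∀ X : 𝒱.Obj, X ⟶ X) (X : ι → 𝒱.Obj) (Z : 𝒱.Obj) (χ : ℚ[X])
    (h : IsCoveringSystem C N lam H τ F X Z χ) (U : Homology K) (hU : IsHomology U χ)
    (T : MotivicHomology U H) (hT : T.IsMotivicHomology F (Fintype.card κ)) (L : List ι)
    (hL : L.Nodup) : Conclusions F (Fintype.card κ) χ X Z T L := by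
  obtain ⟨hf, hC, hN, hdN, hsmall⟩ := hC
  obtain ⟨hstd, hfrob, hprod, hmodel, hpol, halg, hχ0, hbase⟩ := h
  have hfin := hstd.finite
  have hf0 : 0 < f := by
    rcases Nat.eq_zero_or_pos f with h | h
    · rw [h, pow_zero] at hf
      have := Fintype.one_lt_card (α := κ)
      omega
    · exact h
  choose g T' hσT hgT hT' hcov hpure using hmodel
  have hsmall' : ∀ I : Finset ι, I.Nonempty → Pool.Agent.N876.UV.SmallI c f N lam
      (fun i => (C i).N) (fun i => (C i).n) (fun i => (C i).s) (fun i => (C i).a) I := by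
    intro I hI j hj
    obtain ⟨u, hu, hlt⟩ := hsmall I hI j hj
    refine ⟨u, hu, Pool.Agent.N876.UV.weight_conv' hf0 hN hdN I
      (fun i => ∑ k, ∑ t ∈ range f, (u * j i * (C i).a k * c ^ t) % (C i).N) ?_⟩
    refine lt_of_le_of_lt (le_of_eq ?_) hlt
    congr 1
    refine sum_congr rfl fun i _ => ?_
    unfold Covering.weight
    push_cast
    rfl
  have hcov' : ∀ i, Pool.Agent.N876.TC.IsCov (C i).N (C i).l (C i).a (C i).z
      ((ofHom (H.pull (F (X i)))).restrict (hσT i)) ((ofHom (H.pull (g i))).restrict (hgT i)) :=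
    fun i => ⟨(hcov i).commute, (hcov i).order, (hcov i).invariants,
      fun L _ _ _ t => (hcov i).lefschetz L t⟩
  have hres : ∀ SZ, Pool.Agent.N876.FL.OtherOK τ (Fintype.card κ) N lam SZ →
      Pool.Agent.N876.FL.NoResF (Fintype.card κ : K)
        (fun i => {α | Module.End.HasEigenvalue
          ((ofHom (H.pull (F (X i)))).restrict (hσT i)) α}) SZ :=
    fun SZ hSZ => Pool.Agent.N876.FL.nores_cov hN (fun i => (hC i).two_le) hdN κ hf
      (fun i => (hC i).root) (fun i => (C i).l) (fun i => (C i).a) (fun i => (hC i).coprime) τ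
      hcov' hsmall' hpure hSZ
  have htw : ∀ L : List ι, productOf X Z L = Pool.Agent.N876.CG.tw X Z L := by
    intro L
    induction L with
    | nil => rfl
    | cons i L ih => rw [productOf, Pool.Agent.N876.CG.tw, ih]
  have hdim : ∀ L : List ι, dimension X L = Pool.Agent.N876.CG.dims X L := by
    intro L
    induction L with
    | nil => rfl
    | cons i L ih => rw [dimension, Pool.Agent.N876.CG.dims, ih]
  have hq0 : Fintype.card κ ≠ 0 := Fintype.card_ne_zero
  have hsys : Pool.Agent.N876.CG.Cr H F (Fintype.card κ) X Z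
      (fun i => {α | Module.End.HasEigenvalue
          ((ofHom (H.pull (F (X i)))).restrict (hσT i)) α}) {ρ | aeval ρ χ = 0} :=
    { std := isStandard_bridge hstd
      one_lt := Fintype.one_lt_card
      frob := fun X => isFrobenius_bridge (hfrob X)
      prod := hprod
      cg := fun i => ⟨T' i, hσT i, hT' i, fun α hα => hα⟩
      int := fun i α hα => Pool.Agent.N876.CG.int_cov hN (fun i => (hC i).two_le) hdN κ hf
        (fun i => (hC i).root) (fun i => (C i).l) (fun i => (C i).a) (fun i => (hC i).coprime) τ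
        hcov' hsmall' hpure i α hα
      ne := fun i α hα h0 => by
        have h1 := hpure i α hα
        rw [h0, map_zero, norm_zero, zero_pow two_ne_zero] at h1
        have h2 : (0 : ℝ) < (Fintype.card κ : ℝ) := by exact_mod_cast Nat.pos_of_ne_zero hq0
        exact (pow_pos h2 _).ne h1
      intZ := fun β hβ => Pool.Agent.N876.CG.integral_of_emb τ (halg _ ⟨β, hβ, rfl⟩)
      res := by
        have himg : (τ '' {γ | ∃ β ρ, (Pool.Agent.W484.CH.frob H (F Z)).HasEigenvalue β ∧
            ρ ∈ {ρ : K | aeval ρ χ = 0} ∧ γ = β * ρ}) = productsOf (H.pull (F Z)) χ τ := by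
          ext b
          constructor
          · rintro ⟨_, ⟨β, ρ, hβ, hρ, rfl⟩, rfl⟩
            exact ⟨β, ρ, hβ, hρ, rfl⟩
          · rintro ⟨β, ρ, hβ, hρ, rfl⟩
            exact ⟨_, ⟨β, ρ, hβ, hρ, rfl⟩, rfl⟩
        refine hres _ ⟨?_, ?_⟩
        · rintro _ ⟨β, ρ, hβ, hρ, rfl⟩
          exact hbase.1 _ ⟨β, ρ, hβ, hρ, rfl⟩
        · rcases hbase.2 with h | h
          · left
            rw [himg]
            exact h
          · right
            rintro _ ⟨β, ρ, hβ, hρ, rfl⟩
            exact h _ ⟨β, ρ, hβ, hρ, rfl⟩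
      res1 := hres _ (Pool.Agent.N876.FL.otherOK_one τ _ _ _) }
  have hdimV : ((productOf X Z L).dim : ℤ) = Z.dim + dimension X L := by
    clear hL
    induction L with
    | nil => simp [productOf, dimension]
    | cons i L ih =>
      rw [productOf, dimension, Obj.dim_prod]
      push_cast
      rw [ih]
      ring
  let T' : ℤ → MotivicData A := fun t =>
    { M := (T.T t).M
      gr := (T.T t).gr
      act := fun {X Y} =>
        { toFun := fun c => ((hT.theory t).right c).mk' _
          map_add' := fun c d => LinearMap.ext fun z => ((hT.theory t).left z).map_add c d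
          map_smul' := fun a c => LinearMap.ext fun z => ((hT.theory t).left z).map_smul a c } }
  have hT' : ∀ t, IsMotivic (T' t) := fun t =>
    { app_mem := fun hc hz => (hT.theory t).mem hc hz
      app_comp := fun c d z => (hT.theory t).comp c d z
      app_id := fun z => (hT.theory t).id z }
  let reg : ∀ (t : ℤ) (X : 𝒱.Obj), (toCorr (T' t)).M X →ₗ[ℚ]
      (Pool.Agent.N876.CG.modT H U.M (Pool.Agent.N876.CG.part H U.W t)).M X := fun t X =>
    (show (toCorr (T' t)).M X →+
      (Pool.Agent.N876.CG.modT H U.M (Pool.Agent.N876.CG.part H U.W t)).M X from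
        AddMonoidHom.mk' (M := (T.T t).M X) (G := U.R H X) (T.reg t X)
          fun z w => (hT.regulator t).add z w).toRatLinearMap
  let phi0 : ∀ (t : ℤ) (X : 𝒱.Obj), Module.End ℚ ((T.T t).M X) := fun t X =>
    ((hT.frobenius t).linear X).mk' _
  let phi : ∀ (t : ℤ) (X : 𝒱.Obj), Module.End ℚ ((toCorr (T' t)).M X) := phi0
  have hpart : ∀ (t : ℤ) (X : 𝒱.Obj) (n : ℤ),
      U.degreePart H X (2 * n + t) = Pool.Agent.N876.CG.part H U.W t X n := fun t X n => rfl
  have hdel : ∀ (t : ℤ) (X : 𝒱.Obj) (n : ℤ) (v : U.R H X),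
      Pool.Agent.N876.CG.Del (Pool.Agent.N876.CG.modT H U.M (Pool.Agent.N876.CG.part H U.W t))
        (Pool.Agent.N876.CG.phiM (Pool.Agent.N876.CG.part H U.W t) U.μ) F (Fintype.card κ) X n v =
        U.defect F (Fintype.card κ) n v := fun t X n v =>
    Pool.Agent.N876.CG.Del_modT n v
  have hr : ∀ t : ℤ, Pool.Agent.N876.CG.RegTo H F (Fintype.card κ) U.W U.μ t
      (toCorr (T' t)) (phi t) (reg t) := fun t =>
    { corr := toCorr_isCorrTheory (hT' t)
      comm := fun Γ z => (hT.frobenius t).comm Γ z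
      power := fun X n z hz => by
        have h1 := (hT.frobenius t).power z hz
        exact sub_eq_zero.2 h1
      mem := fun X n z hz => (hT.regulator t).mem z hz
      act := fun Γ z => (hT.regulator t).corr
        (G := Pool.Agent.N876.CG.actM H U.M Γ)
          ⟨fun v w => map_add (Pool.Agent.N876.CG.actM H U.M Γ) v w, fun a x => rfl⟩ z
      frob := fun X z => (hT.regulator t).frob
        (G := LinearMap.lTensor (H.A X) U.μ)
          ⟨fun v w => map_add (LinearMap.lTensor (H.A X) U.μ) v w, fun a x => rfl⟩ z }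
  have hμ : aeval U.μ (χ.map (algebraMap ℚ K)) = 0 := by
    refine LinearMap.ext fun x => ?_
    rw [Polynomial.aeval_endomorphism, Polynomial.sum_def,
      Polynomial.support_map_of_injective χ (algebraMap ℚ K).injective, LinearMap.zero_apply]
    refine Eq.trans (Finset.sum_congr rfl fun n _ => ?_) (hU.root x)
    rw [Polynomial.coeff_map, Module.End.pow_apply, eq_ratCast]
  -- the bidegrees
  have hOS : ∀ (V : 𝒱.Obj) (t n : ℤ), Onto (T.reg t) F (Fintype.card κ) t V n ∧
      Semisimple U H F (Fintype.card κ) t V n ↔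
      Pool.Agent.N876.CG.OSat H F (Fintype.card κ) U.W U.μ t (toCorr (T' t)) (reg t) V n := by
    intro V t n
    refine and_congr ?_ ?_
    · refine forall_congr' fun v => forall_congr' fun hv => ?_
      rw [hdel]
      rfl
    · refine forall_congr' fun v => forall_congr' fun hv => ?_
      rw [hdel, hdel]
      rfl
  have e1 : ∀ i j l : ℤ, 2 * (j - l) - (i - 2 * l) = 2 * j - i := fun i j l => by ring
  have e2 : ∀ j l : ℤ, T.codim Z (j - l) = T.codim Z j + l := fun j l => by
    unfold MotivicHomology.codim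
    ring
  have hOZ : ∀ (i j : ℤ) (l : ℤ), T.OntoSemisimple F (Fintype.card κ) Z (i - 2 * l) (j - l) ↔
      Pool.Agent.N876.CG.OSat H F (Fintype.card κ) U.W U.μ (2 * j - i) (toCorr (T' (2 * j - i)))
        (reg (2 * j - i)) Z (T.codim Z j + l) := by
    intro i j l
    unfold MotivicHomology.OntoSemisimple
    rw [e1, e2, hOS]
  have hIZ : ∀ (i j : ℤ) (l : ℤ),
      Injective (T.reg (2 * (j - l) - (i - 2 * l))) Z (T.codim Z (j - l)) ↔
      ∀ z ∈ (toCorr (T' (2 * j - i))).gr Z (T.codim Z j + l), reg (2 * j - i) Z z = 0 → z = 0 := by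
    intro i j l
    rw [e1, e2]
    rfl
  -- the range of the codimensions
  have hrange : ∀ (j : ℤ) (P : ℤ → Prop),
      (∀ m : ℤ, T.codim (productOf X Z L) j - Pool.Agent.N876.CG.dims X L ≤ m →
        m ≤ T.codim (productOf X Z L) j → P m) ↔
      ∀ l : ℕ, l ≤ dimension X L → P (T.codim Z j + l) := by
    intro j P
    rw [← hdim L]
    unfold MotivicHomology.codim
    rw [hdimV]
    constructor
    · intro h1 l hl
      exact h1 _ (by omega) (by omega)
    · intro h1 m h2 h3
      obtain ⟨l, hl⟩ := Int.eq_ofNat_of_zero_le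
        (show 0 ≤ m - ((Z.dim : ℤ) + U.e - j) by omega)
      have h4 := h1 l (by omega)
      have h5 : (Z.dim : ℤ) + U.e - j + l = m := by omega
      rwa [h5] at h4
  have hsurj : ∀ i j : ℤ, T.OntoSemisimple F (Fintype.card κ) (productOf X Z L) i j ↔
      ∀ l : ℕ, l ≤ dimension X L →
        T.OntoSemisimple F (Fintype.card κ) Z (i - 2 * l) (j - l) := by
    intro i j
    have h1 := Pool.Agent.N876.CG.mod_tate hsys hpol hχ0 hμ hU.degree hq0 (hr (2 * j - i)) hL
      (T.codim (productOf X Z L) j)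
    simp only [hOZ]
    unfold MotivicHomology.OntoSemisimple
    rw [hOS, ← hrange j fun m => Pool.Agent.N876.CG.OSat H F (Fintype.card κ) U.W U.μ (2 * j - i)
      (toCorr (T' (2 * j - i))) (reg (2 * j - i)) Z m]
    rw [← htw L] at h1
    exact h1
  have htb : (∀ L, Nilpotence H (productOf X Z L)) → (∀ t, IsRoot (T.T t) χ) →
      ∀ i j : ℤ, (T.TB F (Fintype.card κ) (productOf X Z L) i j ↔
        ∀ l : ℕ, l ≤ dimension X L → T.TB F (Fintype.card κ) Z (i - 2 * l) (j - l)) := by
    intro hnil hroot i j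
    have h1 := Pool.Agent.N876.CG.mod_inj (χ := χ) hsys hpol hχ0 (hr (2 * j - i))
      (fun L => Pool.Agent.N876.CG.nilT_of (toCorr_isCorrTheory (hT' _)) (by
          rw [← htw L]; exact nilpotence_bridge (hnil L)))
      (fun X n z hz => by
        refine (Polynomial.aeval_endomorphism (R := ℚ) (M := (T.T (2 * j - i)).M X)
          (phi0 (2 * j - i) X) z χ).trans ?_
        refine Eq.trans (Finset.sum_congr rfl fun n _ => ?_) (hroot _ X n z hz)
        refine congrArg (fun y : (T.T (2 * j - i)).M X => χ.coeff n • y) ?_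
        exact Module.End.pow_apply (R := ℚ) (M := (T.T (2 * j - i)).M X)
          (phi0 (2 * j - i) X) n z) hL (T.codim (productOf X Z L) j)
    rw [← htw L] at h1
    have h2 : Injective (T.reg (2 * j - i)) (productOf X Z L) (T.codim (productOf X Z L) j) ↔
        ∀ l : ℕ, l ≤ dimension X L →
          Injective (T.reg (2 * (j - l) - (i - 2 * l))) Z (T.codim Z (j - l)) := by
      simp only [hIZ]
      rw [← hrange j fun m => ∀ z ∈ (toCorr (T' (2 * j - i))).gr Z m,
        reg (2 * j - i) Z z = 0 → z = 0]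
      exact h1
    unfold MotivicHomology.TB
    rw [h2, hsurj]
    exact ⟨fun ⟨h3, h4⟩ l hl => ⟨h3 l hl, h4 l hl⟩,
      fun h0 => ⟨fun l hl => (h0 l hl).1, fun l hl => (h0 l hl).2⟩⟩
  refine ⟨hsurj, fun hnil hroot => ⟨htb hnil hroot, fun h1 i j => ?_, fun h1 i j => ?_⟩⟩
  · have h2 := (htb hnil hroot i j).1 (h1 i j) 0 (Nat.zero_le _)
    have e1 : i - 2 * ((0 : ℕ) : ℤ) = i := by simp
    have e2 : j - ((0 : ℕ) : ℤ) = j := by simp
    rwa [e1, e2] at h2
  · exact (htb hnil hroot i j).2 fun l _ => h1 _ _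

end Pool.Agent.N876.TB2
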